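import Pool.Agent.J4H5.RZ.Stm

/-!
# Project RZ (helper5): (SUM), the sums of the amplitudes
-/

set_option autoImplicit false

namespace Pool.Agent.J4H85.RZ

open Complex MeasureTheory Filter Topology Set
open Pool.Agent.J4H4.NG Pool.Agent.J4H5.RZ

/-! ## telescoping sums -/

theorem tel {N : ℝ} (hN : 0 < N) (m : ℕ) :
    ∑ n ∈ Finset.range m, 1 / (N + ((n : ℝ) + 1)) ^ 2 ≤ 1 / N - 1 / (N + m) := by
  induction m with
  | zero => simp
  | succ m ih =>
    rw [Finset.sum_range_succ]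
    have h1 : 0 < N + m := by positivity
    have h2 : 0 < N + ((m : ℝ) + 1) := by positivity
    have h3 : 1 / (N + ((m : ℝ) + 1)) ^ 2 ≤ 1 / (N + m) - 1 / (N + ((m : ℝ) + 1)) := by
      rw [div_sub_div _ _ h1.ne' h2.ne', div_le_div_iff₀ (by positivity) (by positivity)]
      nlinarith
    have h4 : ((m + 1 : ℕ) : ℝ) = (m : ℝ) + 1 := by push_cast; ring
    rw [h4]
    linarith

theorem tel' {N : ℝ} (hN : 0 < N) (m : ℕ) :
    ∑ n ∈ Finset.range m, 4 * N ^ 2 / (N + ((n : ℝ) + 1)) ^ 2 ≤ 4 * N := by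
  have h := tel hN m
  have h1 : 0 < 1 / (N + m) := by positivity
  have h2 : ∑ n ∈ Finset.range m, 4 * N ^ 2 / (N + ((n : ℝ) + 1)) ^ 2 =
      4 * N ^ 2 * ∑ n ∈ Finset.range m, 1 / (N + ((n : ℝ) + 1)) ^ 2 := by
    rw [Finset.mul_sum]
    refine Finset.sum_congr rfl fun n _ => by ring
  rw [h2]
  have h3 : 4 * N ^ 2 * ∑ n ∈ Finset.range m, 1 / (N + ((n : ℝ) + 1)) ^ 2 ≤ 4 * N ^ 2 * (1 / N) :=
    mul_le_mul_of_nonneg_left (by linarith) (by positivity)
  have h4 : 4 * N ^ 2 * (1 / N) = 4 * N := by field_simp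
  linarith

theorem telδ {d : ℝ} (hd : 0 < d) (m : ℕ) :
    ∑ n ∈ Finset.range m, 1 / (d + (n : ℝ)) ^ 2 ≤ 1 / d ^ 2 + 1 / d := by
  cases m with
  | zero => simp; positivity
  | succ m =>
    rw [Finset.sum_range_succ']
    have h := tel hd m
    have h1 : 0 < 1 / (d + m) := by positivity
    have h2 : ∑ n ∈ Finset.range m, 1 / (d + ((n + 1 : ℕ) : ℝ)) ^ 2 =
        ∑ n ∈ Finset.range m, 1 / (d + ((n : ℝ) + 1)) ^ 2 :=
      Finset.sum_congr rfl fun n _ => by push_cast; ring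
    rw [h2]
    simp only [Nat.cast_zero, add_zero]
    linarith

theorem twoSided {d y : ℝ} (hd : 0 < d) (hy : 0 ≤ y) (M : ℕ) :
    ∑ k ∈ Finset.range M, 1 / (d + |(k : ℝ) - y|) ^ 2 ≤ 2 * (1 / d ^ 2 + 1 / d) := by
  set c := ⌈y⌉₊ with hc
  have hc1 : y ≤ c := Nat.le_ceil y
  have hc2 : (c : ℝ) < y + 1 := Nat.ceil_lt_add_one hy
  have hpos : ∀ k : ℕ, 0 ≤ 1 / (d + |(k : ℝ) - y|) ^ 2 := fun k => by positivity
  rw [← Finset.sum_filter_add_sum_filter_not (Finset.range M) (fun k => k < c)]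
  have h1 : ∑ k ∈ (Finset.range M).filter (fun k => k < c), 1 / (d + |(k : ℝ) - y|) ^ 2 ≤
      1 / d ^ 2 + 1 / d := by
    calc _ ≤ ∑ k ∈ Finset.range c, 1 / (d + |(k : ℝ) - y|) ^ 2 := by
          refine Finset.sum_le_sum_of_subset_of_nonneg ?_ fun k _ _ => hpos k
          intro k hk
          rw [Finset.mem_filter] at hk
          exact Finset.mem_range.2 hk.2
      _ = ∑ j ∈ Finset.range c, 1 / (d + |((c - 1 - j : ℕ) : ℝ) - y|) ^ 2 := by
          rw [Finset.sum_range_reflect (fun k => 1 / (d + |(k : ℝ) - y|) ^ 2) c]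
      _ ≤ ∑ j ∈ Finset.range c, 1 / (d + (j : ℝ)) ^ 2 := by
          refine Finset.sum_le_sum fun j hj => ?_
          have hj' := Finset.mem_range.1 hj
          have e1 : ((c - 1 - j : ℕ) : ℝ) = (c : ℝ) - 1 - j := by
            rw [Nat.cast_sub (by omega), Nat.cast_sub (by omega)]
            simp
          have e2 : (j : ℝ) ≤ |((c - 1 - j : ℕ) : ℝ) - y| := by
            rw [e1]
            have := neg_le_abs ((c : ℝ) - 1 - j - y)
            linarith
          exact one_div_le_one_div_of_le (by positivity)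
            (pow_le_pow_left₀ (by positivity) (by linarith) 2)
      _ ≤ _ := telδ hd c
  have h2 : ∑ k ∈ (Finset.range M).filter (fun k => ¬ k < c), 1 / (d + |(k : ℝ) - y|) ^ 2 ≤
      1 / d ^ 2 + 1 / d := by
    calc _ ≤ ∑ k ∈ Finset.Ico c (c + M), 1 / (d + |(k : ℝ) - y|) ^ 2 := by
          refine Finset.sum_le_sum_of_subset_of_nonneg ?_ fun k _ _ => hpos k
          intro k hk
          rw [Finset.mem_filter, Finset.mem_range] at hk
          exact Finset.mem_Ico.2 ⟨by omega, by omega⟩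
      _ = ∑ j ∈ Finset.range M, 1 / (d + |((c + j : ℕ) : ℝ) - y|) ^ 2 := by
          rw [Finset.sum_Ico_eq_sum_range]
          congr 1
          simp
      _ ≤ ∑ j ∈ Finset.range M, 1 / (d + (j : ℝ)) ^ 2 := by
          refine Finset.sum_le_sum fun j hj => ?_
          have e2 : (j : ℝ) ≤ |((c + j : ℕ) : ℝ) - y| := by
            have := le_abs_self (((c + j : ℕ) : ℝ) - y)
            push_cast at this ⊢
            linarith
          exact one_div_le_one_div_of_le (by positivity)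
            (pow_le_pow_left₀ (by positivity) (by linarith) 2)
      _ ≤ _ := telδ hd M
  linarith

/-! ## the pointwise bound -/

theorem key (p : ℕ) {q lam : ℝ} (hq : 0 < q) {k : ℕ} (hk : 1 ≤ k) :
    ((k : ℝ) ^ p)⁻¹ * ((1 + |Real.log k - lam|) * Real.exp (-q * (Real.log k - lam) ^ 2)) ≤
      Real.exp (((p : ℝ) + 3) ^ 2 / (4 * q)) * Real.exp (-(p * lam)) *
        (4 * Real.exp lam ^ 2 / (Real.exp lam + k) ^ 2) := by
  have hk0 : (0 : ℝ) < k := by exact_mod_cast hk
  set x := Real.log k - lam with hx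
  have hkx : (k : ℝ) = Real.exp (lam + x) := by
    rw [hx, add_sub_cancel, Real.exp_log hk0]
  have h1 : 1 + |x| ≤ Real.exp |x| := by
    have := Real.add_one_le_exp |x|
    linarith
  have h2 : ((k : ℝ) ^ p)⁻¹ = Real.exp (-(p * (lam + x))) := by
    rw [hkx, ← Real.exp_nat_mul, Real.exp_neg]
  have h3 : Real.exp (-(2 * |x|)) ≤ 4 * Real.exp lam ^ 2 / (Real.exp lam + k) ^ 2 := by
    rw [le_div_iff₀ (by positivity)]
    have e1 : Real.exp lam + k ≤ 2 * Real.exp lam * Real.exp |x| := by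
      rw [hkx, Real.exp_add]
      have e2 : 1 ≤ Real.exp |x| := Real.one_le_exp (abs_nonneg x)
      have e3 : Real.exp x ≤ Real.exp |x| := Real.exp_le_exp.2 (le_abs_self x)
      have e4 := Real.exp_pos lam
      nlinarith
    have e5 : (Real.exp lam + k) ^ 2 ≤ (2 * Real.exp lam * Real.exp |x|) ^ 2 :=
      pow_le_pow_left₀ (by positivity) e1 2
    calc Real.exp (-(2 * |x|)) * (Real.exp lam + k) ^ 2
        ≤ Real.exp (-(2 * |x|)) * (2 * Real.exp lam * Real.exp |x|) ^ 2 :=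
          mul_le_mul_of_nonneg_left e5 (Real.exp_pos _).le
      _ = 4 * Real.exp lam ^ 2 * (Real.exp (-(2 * |x|)) * (Real.exp |x| * Real.exp |x|)) := by ring
      _ = 4 * Real.exp lam ^ 2 := by
          rw [← Real.exp_add, ← Real.exp_add]
          have : -(2 * |x|) + (|x| + |x|) = 0 := by ring
          rw [this, Real.exp_zero, mul_one]
  have h4 : Real.exp (-(p * (lam + x))) * (Real.exp |x| * Real.exp (-q * x ^ 2)) ≤
      Real.exp (((p : ℝ) + 3) ^ 2 / (4 * q)) * Real.exp (-(p * lam)) * Real.exp (-(2 * |x|)) := by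
    rw [← Real.exp_add, ← Real.exp_add, ← Real.exp_add, ← Real.exp_add]
    apply Real.exp_le_exp.2
    have e1 : ((p : ℝ) + 3) * |x| - q * x ^ 2 ≤ ((p : ℝ) + 3) ^ 2 / (4 * q) := by
      rw [le_div_iff₀ (by positivity)]
      have e4 := sq_nonneg (2 * q * |x| - ((p : ℝ) + 3))
      have e2 : x ^ 2 = |x| ^ 2 := (sq_abs x).symm
      rw [e2]
      have e5 : (((p : ℝ) + 3) * |x| - q * |x| ^ 2) * (4 * q) =
          ((p : ℝ) + 3) ^ 2 - (2 * q * |x| - ((p : ℝ) + 3)) ^ 2 := by ring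
      rw [e5]
      linarith
    have e3 : -(p * x : ℝ) ≤ p * |x| := by
      have := neg_abs_le x
      have hp : (0 : ℝ) ≤ p := Nat.cast_nonneg p
      nlinarith
    nlinarith
  rw [h2]
  calc Real.exp (-(p * (lam + x))) * ((1 + |x|) * Real.exp (-q * x ^ 2))
      ≤ Real.exp (-(p * (lam + x))) * (Real.exp |x| * Real.exp (-q * x ^ 2)) := by
        gcongr
    _ ≤ Real.exp (((p : ℝ) + 3) ^ 2 / (4 * q)) * Real.exp (-(p * lam)) * Real.exp (-(2 * |x|)) := h4
    _ ≤ _ := mul_le_mul_of_nonneg_left h3 (by positivity)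

theorem key' (p : ℕ) {q lam : ℝ} (hq : 0 < q) (n : ℕ) :
    (((n + 1 : ℕ) : ℝ) ^ p)⁻¹ * ((1 + |Real.log ((n + 1 : ℕ) : ℝ) - lam|) *
        Real.exp (-q * (Real.log ((n + 1 : ℕ) : ℝ) - lam) ^ 2)) ≤
      Real.exp (((p : ℝ) + 3) ^ 2 / (4 * q)) * Real.exp (-(p * lam)) *
        (4 * Real.exp lam ^ 2 / (Real.exp lam + ((n : ℝ) + 1)) ^ 2) := by
  have h := key p (lam := lam) hq (k := n + 1) (by omega)
  push_cast at h ⊢
  exact h

/-- partial sums -/
theorem part (p : ℕ) {q lam : ℝ} (hq : 0 < q) (m : ℕ) :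
    ∑ n ∈ Finset.range m, (((n + 1 : ℕ) : ℝ) ^ p)⁻¹ * ((1 + |Real.log ((n + 1 : ℕ) : ℝ) - lam|) *
        Real.exp (-q * (Real.log ((n + 1 : ℕ) : ℝ) - lam) ^ 2)) ≤
      4 * Real.exp (((p : ℝ) + 3) ^ 2 / (4 * q)) * (Real.exp (-(p * lam)) * Real.exp lam) := by
  calc _ ≤ ∑ n ∈ Finset.range m, Real.exp (((p : ℝ) + 3) ^ 2 / (4 * q)) * Real.exp (-(p * lam)) *
        (4 * Real.exp lam ^ 2 / (Real.exp lam + ((n : ℝ) + 1)) ^ 2) :=
        Finset.sum_le_sum fun n _ => key' p hq n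
    _ = Real.exp (((p : ℝ) + 3) ^ 2 / (4 * q)) * Real.exp (-(p * lam)) *
        ∑ n ∈ Finset.range m, 4 * Real.exp lam ^ 2 / (Real.exp lam + ((n : ℝ) + 1)) ^ 2 := by
        rw [Finset.mul_sum]
    _ ≤ Real.exp (((p : ℝ) + 3) ^ 2 / (4 * q)) * Real.exp (-(p * lam)) * (4 * Real.exp lam) :=
        mul_le_mul_of_nonneg_left (tel' (Real.exp_pos lam) m) (by positivity)
    _ = _ := by ring

/-! ## the kernel -/

theorem KK_le {h : ℝ} (hh : 0 ≤ h) (x : ℝ) : ‖KK h x‖ ≤ h := by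
  unfold KK
  have := intervalIntegral.norm_integral_le_of_norm_le_const (a := 0) (b := h) (C := 1)
    (f := fun u : ℝ => cexp (I * ((u * x : ℝ) : ℂ))) (fun u _ => by
      rw [mul_comm I, Complex.norm_exp_ofReal_mul_I])
  rw [sub_zero, abs_of_nonneg hh, one_mul] at this
  exact this

theorem KK_le' (h : ℝ) {x : ℝ} (hx : x ≠ 0) : ‖KK h x‖ ≤ 2 / |x| := by
  unfold KK
  have hc : I * (x : ℂ) ≠ 0 := mul_ne_zero I_ne_zero (by exact_mod_cast hx)
  have h1 : (fun u : ℝ => cexp (I * ((u * x : ℝ) : ℂ))) = fun u : ℝ => cexp ((I * (x : ℂ)) * (u : ℂ)) := by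
    funext u
    congr 1
    push_cast
    ring
  have h2 : ∫ u in (0 : ℝ)..h, cexp (I * ((u * x : ℝ) : ℂ)) =
      (cexp ((I * (x : ℂ)) * (h : ℂ)) - cexp ((I * (x : ℂ)) * ((0 : ℝ) : ℂ))) / (I * (x : ℂ)) := by
    rw [h1]
    exact integral_exp_mul_complex hc
  rw [h2, norm_div, norm_mul, norm_I, one_mul, Complex.norm_real, Real.norm_eq_abs]
  have h3 : ‖cexp ((I * (x : ℂ)) * (h : ℂ)) - cexp ((I * (x : ℂ)) * ((0 : ℝ) : ℂ))‖ ≤ 2 := by
    have e1 : ‖cexp ((I * (x : ℂ)) * (h : ℂ))‖ = 1 := by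
      have : (I * (x : ℂ)) * (h : ℂ) = ((x * h : ℝ) : ℂ) * I := by push_cast; ring
      rw [this, Complex.norm_exp_ofReal_mul_I]
    have e2 : ‖cexp ((I * (x : ℂ)) * ((0 : ℝ) : ℂ))‖ = 1 := by simp
    calc _ ≤ ‖cexp ((I * (x : ℂ)) * (h : ℂ))‖ + ‖cexp ((I * (x : ℂ)) * ((0 : ℝ) : ℂ))‖ := norm_sub_le _ _
      _ = 2 := by rw [e1, e2]; norm_num
  exact div_le_div_of_nonneg_right h3 (abs_nonneg x)


/-! ## amplitudes -/

theorem ampl_sq (a lam : ℝ) (k : ℕ) :
    (((k : ℝ) ^ 2)⁻¹ * Real.exp (-a * (Real.log k - lam) ^ 2)) ^ 2 =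
      ((k : ℝ) ^ 4)⁻¹ * Real.exp (-(2 * a) * (Real.log k - lam) ^ 2) := by
  rw [mul_pow, ← Real.exp_nat_mul, inv_pow, ← pow_mul]
  congr 2
  push_cast
  ring

theorem kk_point {a lam L h : ℝ} (ha : 0 < a) (hh : 1 ≤ h) {k : ℕ} (hk : 1 ≤ k) :
    (((k : ℝ) ^ 2)⁻¹ * Real.exp (-a * (Real.log k - lam) ^ 2)) ^ 2 * ‖KK h (L - Real.log k)‖ ^ 2 ≤
      4 * (((k : ℝ) ^ 2)⁻¹ * Real.exp (-a * (Real.log k - lam) ^ 2)) ^ 2 +
      4 * Real.exp 4 * Real.exp (-(4 * L)) * (2 * Real.exp 1 * Real.exp L) ^ 2 *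
        (1 / (2 * Real.exp 1 * Real.exp L / h + |(k : ℝ) - Real.exp L|) ^ 2) := by
  have hk0 : (0 : ℝ) < k := by exact_mod_cast hk
  set x := L - Real.log k with hx
  set A := 2 * Real.exp 1 * Real.exp L with hA
  have hA0 : 0 < A := by positivity
  have hh0 : 0 < h := by linarith
  set am := (((k : ℝ) ^ 2)⁻¹ * Real.exp (-a * (Real.log k - lam) ^ 2)) ^ 2 with ham
  have ham0 : 0 ≤ am := by positivity
  by_cases hx1 : 1 ≤ |x|
  · have h1 : ‖KK h x‖ ≤ 2 := by
      have hx0 : x ≠ 0 := by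
        intro h0
        rw [h0, abs_zero] at hx1
        linarith
      refine (KK_le' h hx0).trans ?_
      rw [div_le_iff₀ (by linarith)]
      linarith
    have h2 : ‖KK h x‖ ^ 2 ≤ 4 := by
      calc ‖KK h x‖ ^ 2 ≤ 2 ^ 2 := pow_le_pow_left₀ (norm_nonneg _) h1 2
        _ = 4 := by norm_num
    have h3 : am * ‖KK h x‖ ^ 2 ≤ am * 4 := mul_le_mul_of_nonneg_left h2 ham0
    have h4 : 0 ≤ 4 * Real.exp 4 * Real.exp (-(4 * L)) * A ^ 2 *
        (1 / (A / h + |(k : ℝ) - Real.exp L|) ^ 2) := by positivity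
    linarith
  · push Not at hx1
    have hkx : (k : ℝ) = Real.exp (L - x) := by
      rw [hx, sub_sub_cancel, Real.exp_log hk0]
    have h1 : |(k : ℝ) - Real.exp L| ≤ Real.exp 1 * Real.exp L * |x| := by
      rw [hkx, show L - x = L + -x by ring, Real.exp_add]
      have e1 : |Real.exp (-x) - 1| ≤ Real.exp 1 * |x| := by
        have e2 : |Real.exp (-x) - 1| ≤ |x| * Real.exp |x| := by
          rcases le_total 0 x with h0 | h0
          · rw [abs_of_nonpos (by linarith [Real.exp_le_one_iff.2 (neg_nonpos.2 h0)]), abs_of_nonneg h0]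
            have := Real.add_one_le_exp (-x)
            have := Real.one_le_exp h0
            nlinarith
          · have e3 : 1 ≤ Real.exp (-x) := Real.one_le_exp (by linarith)
            rw [abs_of_nonneg (by linarith), abs_of_nonpos h0]
            have e4 := Real.add_one_le_exp x
            have e5 : Real.exp (-x) * Real.exp x = 1 := by rw [← Real.exp_add]; simp
            have e6 := Real.exp_pos (-x)
            nlinarith
        refine e2.trans ?_
        rw [mul_comm]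
        exact mul_le_mul_of_nonneg_right (Real.exp_le_exp.2 hx1.le) (abs_nonneg x)
      have e7 : Real.exp L * Real.exp (-x) - Real.exp L = Real.exp L * (Real.exp (-x) - 1) := by ring
      rw [e7, abs_mul, abs_of_pos (Real.exp_pos L)]
      calc Real.exp L * |Real.exp (-x) - 1| ≤ Real.exp L * (Real.exp 1 * |x|) :=
            mul_le_mul_of_nonneg_left e1 (Real.exp_pos _).le
        _ = _ := by ring
    have h2 : ‖KK h x‖ * |x| ≤ 2 := by
      rcases eq_or_ne x 0 with h0 | h0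
      · rw [h0]; simp
      · have := KK_le' h h0
        rwa [le_div_iff₀ (abs_pos.2 h0)] at this
    have h3 : ‖KK h x‖ * (A / h + |(k : ℝ) - Real.exp L|) ≤ 2 * A := by
      have e1 : ‖KK h x‖ * (A / h) ≤ A := by
        calc ‖KK h x‖ * (A / h) ≤ h * (A / h) :=
              mul_le_mul_of_nonneg_right (KK_le hh0.le x) (by positivity)
          _ = A := by field_simp
      have e2 : ‖KK h x‖ * |(k : ℝ) - Real.exp L| ≤ A := by
        calc ‖KK h x‖ * |(k : ℝ) - Real.exp L| ≤ ‖KK h x‖ * (Real.exp 1 * Real.exp L * |x|) :=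
              mul_le_mul_of_nonneg_left h1 (norm_nonneg _)
          _ = Real.exp 1 * Real.exp L * (‖KK h x‖ * |x|) := by ring
          _ ≤ Real.exp 1 * Real.exp L * 2 := mul_le_mul_of_nonneg_left h2 (by positivity)
          _ = A := by rw [hA]; ring
      rw [mul_add]
      linarith
    have hden : 0 < A / h + |(k : ℝ) - Real.exp L| := by positivity
    have h4 : ‖KK h x‖ ^ 2 ≤ 4 * A ^ 2 * (1 / (A / h + |(k : ℝ) - Real.exp L|) ^ 2) := by
      rw [mul_one_div, le_div_iff₀ (by positivity), ← mul_pow]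
      calc (‖KK h x‖ * (A / h + |(k : ℝ) - Real.exp L|)) ^ 2 ≤ (2 * A) ^ 2 :=
            pow_le_pow_left₀ (by positivity) h3 2
        _ = 4 * A ^ 2 := by ring
    have h5 : am ≤ Real.exp 4 * Real.exp (-(4 * L)) := by
      rw [ham, ampl_sq]
      have e1 : Real.exp (-(2 * a) * (Real.log k - lam) ^ 2) ≤ 1 := by
        apply Real.exp_le_one_iff.2
        have := mul_nonneg ha.le (sq_nonneg (Real.log k - lam))
        linarith
      have e2 : ((k : ℝ) ^ 4)⁻¹ ≤ Real.exp 4 * Real.exp (-(4 * L)) := by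
        rw [hkx, ← Real.exp_nat_mul, ← Real.exp_neg, ← Real.exp_add]
        apply Real.exp_le_exp.2
        push_cast
        have := le_abs_self x
        linarith
      calc ((k : ℝ) ^ 4)⁻¹ * Real.exp (-(2 * a) * (Real.log k - lam) ^ 2) ≤ ((k : ℝ) ^ 4)⁻¹ * 1 :=
            mul_le_mul_of_nonneg_left e1 (by positivity)
        _ ≤ _ := by rw [mul_one]; exact e2
    have h6 : am * ‖KK h x‖ ^ 2 ≤ Real.exp 4 * Real.exp (-(4 * L)) *
        (4 * A ^ 2 * (1 / (A / h + |(k : ℝ) - Real.exp L|) ^ 2)) :=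
      mul_le_mul h5 h4 (by positivity) (by positivity)
    have h7 : Real.exp 4 * Real.exp (-(4 * L)) *
        (4 * A ^ 2 * (1 / (A / h + |(k : ℝ) - Real.exp L|) ^ 2)) =
      4 * Real.exp 4 * Real.exp (-(4 * L)) * A ^ 2 *
        (1 / (A / h + |(k : ℝ) - Real.exp L|) ^ 2) := by ring
    linarith


theorem t_SUM : S_SUM := by
  intro a C₀ ha hC₀
  have h2a : 0 < 2 * a := by positivity
  set K₁ := 4 * Real.exp ((((2 : ℕ) : ℝ) + 3) ^ 2 / (4 * a)) with hK₁
  set K₃ := 4 * Real.exp ((((3 : ℕ) : ℝ) + 3) ^ 2 / (4 * (2 * a))) with hK₃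
  set K₄ := 4 * Real.exp ((((4 : ℕ) : ℝ) + 3) ^ 2 / (4 * (2 * a))) with hK₄
  set K₅ := 8 * Real.exp 4 * (Real.exp C₀ + 2 * Real.exp 1) * Real.exp (3 * C₀) with hK₅
  have hK₁0 : 0 < K₁ := by positivity
  have hK₃0 : 0 < K₃ := by positivity
  have hK₄0 : 0 < K₄ := by positivity
  have hK₅0 : 0 < K₅ := by positivity
  refine ⟨Real.exp (-(2 * a * Real.log 2 ^ 2)) / 64, K₁ + K₃ + 4 * K₄ + K₅, by positivity, by positivity,
    fun lam hlam => ?_⟩
  have hcast : ∀ n : ℕ, ((n + 1 : ℕ) : ℝ) = (n : ℝ) + 1 := fun n => by push_cast; ring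
  have hamp0 : ∀ k : ℕ, 0 ≤ amp a lam k := fun k => by unfold amp; positivity
  have hsq : ∀ k : ℕ, (amp a lam k) ^ 2 = ((k : ℝ) ^ 4)⁻¹ * Real.exp (-(2 * a) * (Real.log k - lam) ^ 2) :=
    fun k => ampl_sq a lam k
  -- the third sum
  have p3 : ∀ m : ℕ, ∑ n ∈ Finset.range m, amp a lam (n + 1) * (1 + |Real.log ((n : ℝ) + 1) - lam|) ≤
      K₁ * Real.exp (-lam) := by
    intro m
    have h := part 2 (q := a) (lam := lam) ha m
    have e : Real.exp (-(((2 : ℕ) : ℝ) * lam)) * Real.exp lam = Real.exp (-lam) := by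
      rw [← Real.exp_add]
      congr 1
      push_cast
      ring
    rw [e] at h
    refine le_trans (le_of_eq ?_) h
    refine Finset.sum_congr rfl fun n _ => ?_
    unfold amp
    rw [hcast n]
    ring
  have p1 : ∀ m : ℕ, ∑ n ∈ Finset.range m, amp a lam (n + 1) ≤ K₁ * Real.exp (-lam) := by
    intro m
    refine le_trans (Finset.sum_le_sum fun n _ => ?_) (p3 m)
    have h1 : 1 ≤ 1 + |Real.log ((n : ℝ) + 1) - lam| := by
      have := abs_nonneg (Real.log ((n : ℝ) + 1) - lam)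
      linarith
    exact le_mul_of_one_le_right (hamp0 _) h1
  -- the fourth sum
  have p4 : ∀ m : ℕ, ∑ n ∈ Finset.range m, ((n : ℝ) + 1) * (1 + Real.log ((n : ℝ) + 1)) * (amp a lam (n + 1)) ^ 2 ≤
      K₃ * (1 + lam) * Real.exp (-(2 * lam)) := by
    intro m
    have h := part 3 (q := 2 * a) (lam := lam) h2a m
    have e : Real.exp (-(((3 : ℕ) : ℝ) * lam)) * Real.exp lam = Real.exp (-(2 * lam)) := by
      rw [← Real.exp_add]
      congr 1
      push_cast
      ring
    rw [e] at h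
    calc _ ≤ ∑ n ∈ Finset.range m, (1 + lam) * ((((n + 1 : ℕ) : ℝ) ^ 3)⁻¹ * ((1 + |Real.log ((n + 1 : ℕ) : ℝ) - lam|) *
        Real.exp (-(2 * a) * (Real.log ((n + 1 : ℕ) : ℝ) - lam) ^ 2))) := by
          refine Finset.sum_le_sum fun n _ => ?_
          rw [hsq, ← hcast n]
          set k : ℝ := ((n + 1 : ℕ) : ℝ) with hk
          have hk0 : 0 < k := by rw [hk, hcast]; positivity
          have e1 : k * (1 + Real.log k) * ((k ^ 4)⁻¹ * Real.exp (-(2 * a) * (Real.log k - lam) ^ 2)) =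
              (1 + Real.log k) * ((k ^ 3)⁻¹ * Real.exp (-(2 * a) * (Real.log k - lam) ^ 2)) := by
            field_simp
          have e2 : 1 + Real.log k ≤ (1 + lam) * (1 + |Real.log k - lam|) := by
            have h1 := le_abs_self (Real.log k - lam)
            have h2 := abs_nonneg (Real.log k - lam)
            nlinarith
          rw [e1]
          calc (1 + Real.log k) * ((k ^ 3)⁻¹ * Real.exp (-(2 * a) * (Real.log k - lam) ^ 2))
              ≤ ((1 + lam) * (1 + |Real.log k - lam|)) * ((k ^ 3)⁻¹ * Real.exp (-(2 * a) * (Real.log k - lam) ^ 2)) :=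
                mul_le_mul_of_nonneg_right e2 (by positivity)
            _ = _ := by ring
      _ = (1 + lam) * ∑ n ∈ Finset.range m, ((((n + 1 : ℕ) : ℝ) ^ 3)⁻¹ * ((1 + |Real.log ((n + 1 : ℕ) : ℝ) - lam|) *
        Real.exp (-(2 * a) * (Real.log ((n + 1 : ℕ) : ℝ) - lam) ^ 2))) := by rw [Finset.mul_sum]
      _ ≤ (1 + lam) * (K₃ * Real.exp (-(2 * lam))) := mul_le_mul_of_nonneg_left h (by linarith)
      _ = _ := by ring
  -- the sixth sum
  have p6 : ∀ m : ℕ, ∑ n ∈ Finset.range m, (amp a lam (n + 1)) ^ 2 ≤ K₄ * Real.exp (-(3 * lam)) := by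
    intro m
    have h := part 4 (q := 2 * a) (lam := lam) h2a m
    have e : Real.exp (-(((4 : ℕ) : ℝ) * lam)) * Real.exp lam = Real.exp (-(3 * lam)) := by
      rw [← Real.exp_add]
      congr 1
      push_cast
      ring
    rw [e] at h
    refine le_trans (Finset.sum_le_sum fun n _ => ?_) h
    rw [hsq]
    have h1 : 1 ≤ 1 + |Real.log ((n + 1 : ℕ) : ℝ) - lam| := by
      have := abs_nonneg (Real.log ((n + 1 : ℕ) : ℝ) - lam)
      linarith
    refine mul_le_mul_of_nonneg_left ?_ (by positivity)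
    exact le_mul_of_one_le_left (Real.exp_pos _).le h1
  have s1 : Summable (fun n : ℕ => amp a lam (n + 1)) :=
    summable_of_sum_range_le (fun n => hamp0 _) p1
  have s6 : Summable (fun n : ℕ => (amp a lam (n + 1)) ^ 2) :=
    summable_of_sum_range_le (fun n => sq_nonneg _) p6
  have hlog0 : ∀ n : ℕ, 0 ≤ Real.log ((n : ℝ) + 1) := fun n =>
    Real.log_nonneg (by have : (0 : ℝ) ≤ n := Nat.cast_nonneg n; linarith)
  have hE1 := Real.exp_pos (-lam)
  have hE2 := Real.exp_pos (-(2 * lam))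
  have hE3 := Real.exp_pos (-(3 * lam))
  refine ⟨s1, ?_, ?_, ?_, ?_, ?_, ?_⟩
  · refine (Real.tsum_le_of_sum_range_le (fun n => hamp0 _) p1).trans ?_
    exact mul_le_mul_of_nonneg_right (by linarith) hE1.le
  · refine (Real.tsum_le_of_sum_range_le (fun n => mul_nonneg (hamp0 _) (by positivity)) p3).trans ?_
    exact mul_le_mul_of_nonneg_right (by linarith) hE1.le
  · refine (Real.tsum_le_of_sum_range_le (fun n => ?_) p4).trans ?_
    · have := hlog0 n
      positivity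
    · refine mul_le_mul_of_nonneg_right ?_ hE2.le
      exact mul_le_mul_of_nonneg_right (by linarith) (by linarith)
  · -- the lower bound
    set N := Real.exp lam with hN
    have hN2 : 8 / 3 ≤ N := by
      have h1 := Real.exp_one_gt_d9
      have h2 : Real.exp 1 ≤ Real.exp lam := Real.exp_le_exp.2 hlam
      linarith
    have hN0 : 0 < N := by linarith
    have hbig : ∀ n ∈ Finset.Ico ⌈N⌉₊ (⌊2 * N⌋₊), (N ^ 4)⁻¹ / 16 * Real.exp (-(2 * a * Real.log 2 ^ 2)) ≤
        (amp a lam (n + 1)) ^ 2 := by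
      intro n hn
      rw [Finset.mem_Ico] at hn
      have h1 : N ≤ n := (Nat.le_ceil N).trans (by exact_mod_cast hn.1)
      have h2 : (n : ℝ) + 1 ≤ 2 * N := by
        have : ((n + 1 : ℕ) : ℝ) ≤ (⌊2 * N⌋₊ : ℝ) := by exact_mod_cast hn.2
        rw [hcast] at this
        exact this.trans (Nat.floor_le (by linarith))
      rw [hsq, hcast]
      have hk0 : 0 < (n : ℝ) + 1 := by positivity
      have h3 : (N ^ 4)⁻¹ / 16 ≤ (((n : ℝ) + 1) ^ 4)⁻¹ := by
        rw [div_eq_mul_inv, ← mul_inv]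
        apply inv_anti₀ (by positivity)
        calc ((n : ℝ) + 1) ^ 4 ≤ (2 * N) ^ 4 := pow_le_pow_left₀ hk0.le h2 4
          _ = N ^ 4 * 16 := by ring
      have h4 : Real.exp (-(2 * a * Real.log 2 ^ 2)) ≤ Real.exp (-(2 * a) * (Real.log ((n : ℝ) + 1) - lam) ^ 2) := by
        apply Real.exp_le_exp.2
        have l1 : lam ≤ Real.log ((n : ℝ) + 1) := by
          rw [Real.le_log_iff_exp_le hk0]
          linarith
        have l2 : Real.log ((n : ℝ) + 1) ≤ Real.log 2 + lam := by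
          have e := Real.log_le_log hk0 h2
          rwa [Real.log_mul (by norm_num) hN0.ne', hN, Real.log_exp] at e
        have l3 : (Real.log ((n : ℝ) + 1) - lam) ^ 2 ≤ Real.log 2 ^ 2 :=
          pow_le_pow_left₀ (by linarith) (by linarith) 2
        nlinarith
      exact mul_le_mul h3 h4 (Real.exp_pos _).le (by positivity)
    have hcard : N / 4 ≤ ((Finset.Ico ⌈N⌉₊ (⌊2 * N⌋₊)).card : ℝ) := by
      rw [Nat.card_Ico]
      have e1 : (⌊2 * N⌋₊ : ℝ) ≤ ((⌊2 * N⌋₊ - ⌈N⌉₊ : ℕ) : ℝ) + (⌈N⌉₊ : ℝ) := by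
        exact_mod_cast (by omega : ⌊2 * N⌋₊ ≤ (⌊2 * N⌋₊ - ⌈N⌉₊) + ⌈N⌉₊)
      have e2 := Nat.sub_one_lt_floor (2 * N)
      have e3 := Nat.ceil_lt_add_one hN0.le
      linarith
    have hsum : ∑ n ∈ Finset.Ico ⌈N⌉₊ (⌊2 * N⌋₊), (amp a lam (n + 1)) ^ 2 ≤ ∑' n : ℕ, (amp a lam (n + 1)) ^ 2 :=
      s6.sum_le_tsum _ (fun n _ => sq_nonneg _)
    refine le_trans ?_ hsum
    calc Real.exp (-(2 * a * Real.log 2 ^ 2)) / 64 * Real.exp (-(3 * lam))
        = N / 4 * ((N ^ 4)⁻¹ / 16 * Real.exp (-(2 * a * Real.log 2 ^ 2))) := by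
          have e : Real.exp (-(3 * lam)) = (N ^ 3)⁻¹ := by
            rw [hN, ← Real.exp_nat_mul, ← Real.exp_neg]
            norm_num
          rw [e]
          field_simp
          ring
      _ ≤ ((Finset.Ico ⌈N⌉₊ (⌊2 * N⌋₊)).card : ℝ) * ((N ^ 4)⁻¹ / 16 * Real.exp (-(2 * a * Real.log 2 ^ 2))) :=
          mul_le_mul_of_nonneg_right hcard (by positivity)
      _ = ∑ _n ∈ Finset.Ico ⌈N⌉₊ (⌊2 * N⌋₊), (N ^ 4)⁻¹ / 16 * Real.exp (-(2 * a * Real.log 2 ^ 2)) := by
          rw [Finset.sum_const, nsmul_eq_mul]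
      _ ≤ _ := Finset.sum_le_sum hbig
  · refine (Real.tsum_le_of_sum_range_le (fun n => sq_nonneg _) p6).trans ?_
    exact mul_le_mul_of_nonneg_right (by linarith) hE3.le
  · intro L h hL hh1 hh2
    have hh0 : 0 < h := by linarith
    set N' := Real.exp L with hN'
    have hN'0 : 0 < N' := Real.exp_pos L
    have hLu : lam - L ≤ C₀ := by
      have := neg_abs_le (L - lam)
      linarith
    have hp : ∀ m : ℕ, ∑ n ∈ Finset.range m, (amp a lam (n + 1)) ^ 2 * ‖KK h (L - Real.log ((n : ℝ) + 1))‖ ^ 2 ≤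
        (4 * K₄ + K₅) * h * Real.exp (-(3 * lam)) := by
      intro m
      set A := 2 * Real.exp 1 * N' with hA
      have hA0 : 0 < A := by positivity
      have hd : 0 < A / h := by positivity
      have q1 : ∑ n ∈ Finset.range m, (1 / (A / h + |((n : ℝ) + 1) - N'|) ^ 2) ≤
          2 * (1 / (A / h) ^ 2 + 1 / (A / h)) := by
        have e := twoSided hd hN'0.le (m + 1)
        rw [Finset.sum_range_succ'] at e
        have e0 : 0 ≤ 1 / (A / h + |((0 : ℕ) : ℝ) - N'|) ^ 2 := by positivity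
        have e1 : ∑ n ∈ Finset.range m, (1 / (A / h + |((n : ℝ) + 1) - N'|) ^ 2) =
            ∑ n ∈ Finset.range m, (1 / (A / h + |((n + 1 : ℕ) : ℝ) - N'|) ^ 2) :=
          Finset.sum_congr rfl fun n _ => by rw [hcast n]
        rw [e1]
        linarith
      calc _ ≤ ∑ n ∈ Finset.range m, (4 * (amp a lam (n + 1)) ^ 2 +
            4 * Real.exp 4 * Real.exp (-(4 * L)) * A ^ 2 * (1 / (A / h + |((n : ℝ) + 1) - N'|) ^ 2)) := by
            refine Finset.sum_le_sum fun n _ => ?_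
            have e := kk_point (a := a) (lam := lam) (L := L) (h := h) ha hh1 (k := n + 1) (by omega)
            rw [hcast n] at e
            have e2 : amp a lam (n + 1) = (((n : ℝ) + 1) ^ 2)⁻¹ * Real.exp (-a * (Real.log ((n : ℝ) + 1) - lam) ^ 2) := by
              unfold amp
              rw [hcast n]
            rw [e2]
            exact e
        _ = 4 * ∑ n ∈ Finset.range m, (amp a lam (n + 1)) ^ 2 +
            4 * Real.exp 4 * Real.exp (-(4 * L)) * A ^ 2 *
              ∑ n ∈ Finset.range m, (1 / (A / h + |((n : ℝ) + 1) - N'|) ^ 2) := by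
            rw [Finset.sum_add_distrib, Finset.mul_sum, Finset.mul_sum]
        _ ≤ 4 * (K₄ * Real.exp (-(3 * lam))) +
            4 * Real.exp 4 * Real.exp (-(4 * L)) * A ^ 2 * (2 * (1 / (A / h) ^ 2 + 1 / (A / h))) := by
            refine add_le_add (mul_le_mul_of_nonneg_left (p6 m) (by norm_num))
              (mul_le_mul_of_nonneg_left q1 (by positivity))
        _ = 4 * (K₄ * Real.exp (-(3 * lam))) +
            8 * Real.exp 4 * Real.exp (-(4 * L)) * (h ^ 2 + h * A) := by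
            field_simp
            ring
        _ ≤ 4 * (K₄ * Real.exp (-(3 * lam))) * h + K₅ * h * Real.exp (-(3 * lam)) := by
            have r1 : 4 * (K₄ * Real.exp (-(3 * lam))) ≤ 4 * (K₄ * Real.exp (-(3 * lam))) * h :=
              le_mul_of_one_le_right (by positivity) hh1
            have r2 : h ^ 2 + h * A ≤ h * ((Real.exp C₀ + 2 * Real.exp 1) * N') := by
              have r3 : h ≤ Real.exp C₀ * N' := by
                refine hh2.trans ?_
                rw [hN', ← Real.exp_add]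
                exact Real.exp_le_exp.2 (by linarith)
              have r4 : h ^ 2 + h * A = h * (h + A) := by ring
              rw [r4]
              refine mul_le_mul_of_nonneg_left ?_ hh0.le
              rw [hA]
              linarith
            have r5 : Real.exp (-(4 * L)) * N' ≤ Real.exp (3 * C₀) * Real.exp (-(3 * lam)) := by
              rw [hN', ← Real.exp_add, ← Real.exp_add]
              exact Real.exp_le_exp.2 (by linarith)
            have r6 : 8 * Real.exp 4 * Real.exp (-(4 * L)) * (h ^ 2 + h * A) ≤ K₅ * h * Real.exp (-(3 * lam)) := by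
              calc 8 * Real.exp 4 * Real.exp (-(4 * L)) * (h ^ 2 + h * A)
                  ≤ 8 * Real.exp 4 * Real.exp (-(4 * L)) * (h * ((Real.exp C₀ + 2 * Real.exp 1) * N')) :=
                    mul_le_mul_of_nonneg_left r2 (by positivity)
                _ = 8 * Real.exp 4 * h * (Real.exp C₀ + 2 * Real.exp 1) * (Real.exp (-(4 * L)) * N') := by ring
                _ ≤ 8 * Real.exp 4 * h * (Real.exp C₀ + 2 * Real.exp 1) * (Real.exp (3 * C₀) * Real.exp (-(3 * lam))) :=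
                    mul_le_mul_of_nonneg_left r5 (by positivity)
                _ = K₅ * h * Real.exp (-(3 * lam)) := by rw [hK₅]; ring
            linarith
        _ = _ := by ring
    refine (Real.tsum_le_of_sum_range_le (fun n => by positivity) hp).trans ?_
    refine mul_le_mul_of_nonneg_right ?_ hE3.le
    exact mul_le_mul_of_nonneg_right (by linarith) hh0.le

end Pool.Agent.J4H85.RZ
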